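import Pool.Agent.H140.NS.Main

/-!
For all `e`, `m` with `e = m = 1` or `2 ≤ e ≤ m` the maximum number of relations in a minimal
presentation among the numerical semigroups of embedding dimension `e` and multiplicity `m` is
attained by a semigroup all of whose Apery elements have exactly one factorization.

Idea: replace the generators `n_i ≠ m` of a semigroup with the maximal number of relations by
`N n_i + m c_i` with `N = 1` modulo `m` large and generic `c_i`. In each class modulo `m` there is
then a unique cheapest vector. The minimal vectors outside of the set of these cheapest vectors
give a presentation of the old semigroup, and they are isolated factorizations in the new one, so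
every presentation of the new semigroup has at least as many relations.
-/

set_option autoImplicit false

namespace Pool.Agent.Results.MP_e1d67a_co.UniqueAperyAtMax

open Pool.Agent.H140.NS

theorem result : ∀ e m : ℕ, (e = 1 ∧ m = 1) ∨ (2 ≤ e ∧ e ≤ m) →
    ∃ S : AddSubmonoid ℕ, IsNumerical S ∧ embDim S = e ∧ mult S = m ∧
      (∀ T : AddSubmonoid ℕ, IsNumerical T → embDim T = e → mult T = m → eta T ≤ eta S) ∧
      ∀ n ∈ apery S, ∃! z : atoms S →₀ ℕ, value S z = n :=
  main

end Pool.Agent.Results.MP_e1d67a_co.UniqueAperyAtMax
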